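import Pool.Agent.Work.MP_d0224f_cc.Dream

/-!
# Rational curves on which a nef and big line bundle is zero

The setting is that of `Pool.Agent.Work.MP_d0224f_na.Defs` and `Pool.Agent.Work.MP_d0224f_cc.Defs`.
Every field is a datum, a standard property or a published theorem, with a reference or the reason.

References: [Ko] J. Kollár, Rational curves on algebraic varieties; [Ke] S. Keel, Basepoint freeness
for nef and big line bundles in positive characteristic (1999); [EGA] A. Grothendieck, Éléments de
géométrie algébrique; [Ko2] J. Kollár, Quotients by finite equivalence relations (2012).
-/

set_option autoImplicit false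

namespace Pool.CC

open Finset Pool.NA

/-- The rational curves `C` with `L · C = 0` on a Fano variety `X` of dimension `n`, where `L` is
nef. Curves, cycles and points are taken over an uncountable algebraically closed extension field of
`k`. -/
structure RatCurves {k : Type} [Field k] {n p : ℕ} (X : FanoSub k n p) (L : X.Pic) where
  /-- the integral rational curves `C` in `X` with `L · C = 0` -/
  R : Type
  cur : R → X.Curve
  cur_zero : ∀ C, X.deg (cur C) L = 0
  /-- the pairs `(C, u)` of a curve `C` in `R` and a point `u` of its normalisation `ℙ¹ → C` -/
  Pt : Type
  on : Pt → R
  /-- points of `X` -/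
  XPt : Type
  /-- the image of `u` in `X` -/
  img : Pt → XPt
  /-- Mori's cone theorem: if `L` is nef and not ample, it is zero on an extremal ray, and the ray
  contains a rational curve, [Ko, III.1.2] -/
  exists_rat : X.Nef L → ¬ X.Ample L → Nonempty R
  /-- Mori's cone theorem: the cone of curves is spanned by the classes of finitely many rational
  curves, so that (a multiple of) every curve is numerically a sum of rational curves; these are in
  `R` if `L` is zero on the curve -/
  ray_rat : X.Nef L → ∀ C ∈ X.rays, X.deg C L = 0 → ∃ (N : ℕ) (t : Multiset R), 0 < N ∧ t ≠ 0 ∧
    ∀ D, (N : ℤ) * X.deg C D = (t.map fun C' => X.deg (cur C') D).sum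

/-- Their families of cycles in the Chow variety of `X`. -/
structure RatCycles {k : Type} [Field k] {n p : ℕ} (X : FanoSub k n p) (L : X.Pic) extends
    RatCurves X L where
  /-- the irreducible closed subsets of the Chow variety of `X` whose members are connected cycles
  of curves in `R` -/
  Fam : Type
  dim : Fam → ℕ
  /-- Mori: `dim Hom (ℙ¹, X) ≥ - K · C + n` at the normalisation of `C`, and the automorphisms of
  `ℙ¹` have dimension `3`, [Ko, II.1.2, II.2.11], so `C` moves in a family of dimension at least
  `- K · C + n - 3`; limits of rational curves are connected cycles of rational curves, [Ko, II.2.2],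
  and `L` is zero on their components, as `L` is nef -/
  move : X.Nef L → ∀ C : R, ∃ 𝓖 : Fam, - X.deg (cur C) X.K + n ≤ dim 𝓖 + 3
  /-- Let `c L - E` be ample, `E` a sum of prime divisors. Then all curves in `R` are contained in
  `E`. If `dim 𝓖 ≥ n - 1 = dim E`, infinitely many members of `𝓖` contain a given point. They are
  connected, `L` is zero on their components, and their union contains a surface; by the Hodge
  index theorem `L` is numerically trivial on one of its components (the surface swept out by a
  moving component which contains the point, or meets a fixed curve on which `L` is zero). -/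
  surface : X.Nef L → ∀ (s : Multiset X.Div) (c : ℕ), X.Ample (c • L - (s.map X.Δ.cls).sum) →
    ∀ 𝓖 : Fam, n ≤ dim 𝓖 + 1 → ∃ Z : X.B.Sub 2, ∀ A, X.Ample A → X.B.numDim Z L A = 0

/-- The stable maps of genus zero and anticanonical degree two to these curves. -/
structure RatMaps {k : Type} [Field k] {n p : ℕ} (X : FanoSub k n p) (L : X.Pic) extends
    RatCycles X L where
  /-- the irreducible components of the space of stable maps `f` of genus zero to `X` of
  anticanonical degree two with `L` of degree zero -/
  Stab : Type
  dimS : Stab → ℕ
  /-- `tree 𝓣 u u'` (for `u`, `u'` with the same image in `X`): the stable map whose source is the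
  union of the normalisations of the curves of `u` and `u'`, glued at `u` and `u'`, is a member of
  the component `𝓣` -/
  tree : Stab → Pt → Pt → Prop
  /-- the space of stable maps has dimension at least `2 + n - 3` at every point, [Ko, II.1.7] -/
  lower : X.Nef L → ∀ u u' : Pt, img u = img u' → X.deg (cur (on u)) X.K = -1 →
    X.deg (cur (on u')) X.K = -1 → ∃ 𝓣 : Stab, tree 𝓣 u u' ∧ n ≤ dimS 𝓣 + 1
  /-- As `- K` is ample, a stable map of degree two has no contracted components, and one or two
  components. Let `f` be a general member of `𝓣`. If its cycle is reduced, or if it is given by two
  copies of the normalisation of a curve glued at different points, then only finitely many stable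
  maps have this cycle, and `𝓣` has the same dimension as its image in the Chow variety. Otherwise
  `f` is a map to the normalisation of a curve `C₀` of degree one (a double covering, or two copies
  glued at the same point). The stable maps to the fibres of the `ℙ¹`-bundle formed by the
  normalisations of these curves, [Ko, II.2.8], are proper over its base, so all members of `𝓣` are
  of this kind, and `u = u'` if the member is `tree 𝓣 u u'`. -/
  types : X.Nef L → ∀ 𝓣 : Stab, (∃ 𝓖 : Fam, dimS 𝓣 ≤ dim 𝓖) ∨
    ∀ u u' : Pt, img u = img u' → tree 𝓣 u u' → u = u'

/-- The rational curves `C` with `L · C = 0`, the families of cycles which they form, the stable maps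
of anticanonical degree two to them, and the divisors which contain them. -/
structure Rational {k : Type} [Field k] {n p : ℕ} (X : FanoSub k n p) (L : X.Pic) extends
    RatMaps X L where
  /-- the restriction of `L` to the (reduced) union of a finite set of prime divisors is semiample -/
  SemiampleOn : Multiset X.Div → Prop
  /-- [Ke, 0.2]: a nef and big line bundle `L` on a projective variety in characteristic `p > 0` is
  semiample if its restriction to the exceptional locus is. The exceptional locus is the union of
  the subvarieties on which `L` is not big, and it is contained in `E` if `c L - E` is ample, `E` a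
  sum of prime divisors. -/
  keel : X.Nef L → 0 < X.inter (fun _ => L) → ∀ (s : Multiset X.Div) (c : ℕ),
    X.Ample (c • L - (s.map X.Δ.cls).sum) → SemiampleOn s → X.Semiample L
  /-- Suppose that all curves in `R` have anticanonical degree one, that `img` is injective (so that
  only one of them contains a given point), and that `c L - W` is ample. They form families of
  dimension at least `n - 2` and are contained in `W`, so they cover `W` (if there is one), and for
  every movable `D` some of them is not contained in a given member of a multiple of `D` which does
  not contain `W`. -/
  cover : X.Nef L → ∀ W (c : ℕ), X.Ample (c • L - X.Δ.cls W) → Nonempty R →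
    (∀ C : R, X.deg (cur C) X.K = -1) → (∀ u u' : Pt, img u = img u' → u = u') →
      ∀ D, X.Δ.Mov D → ∃ C : R, 0 ≤ X.deg (cur C) D

/-- Suppose that all curves in `R` have anticanonical degree one. Their limits have degree one, so
they are irreducible, and the curves form finitely many proper families; let `V` be the
normalisation of the parameter space and `U → V` the family, a `ℙ¹`-bundle, [Ko, II.2.8]. Let `E` be
the union of the prime divisors in `s`, and suppose that `U → E ⊂ X` is finite and surjective. Let `F`
be a fibre (a divisor) of the fibration which is given by a nef and semiample `M` of numerical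
dimension one with `L + M` ample. Then `L | F` is ample and `F` meets all curves in `R`. Sections
of multiples of `L` are functions on points with values in the algebraically closed field `κ` over
which points are taken, after the choice of a basis of the fibre of `L` at every point of `X`. -/
structure Norms {k : Type} [Field k] {n p : ℕ} {X : FanoSub k n p} {L : X.Pic}
    (Q : Rational X L) (s : Multiset X.Div) where
  κ : Type
  [fld : Field κ]
  /-- the points of `U`, and the corresponding point of the normalisation of a curve in `R` -/
  UPt : Type
  pt : UPt → Q.Pt
  /-- the points of `E` -/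
  EPt : Set Q.XPt
  surj : ∀ x ∈ EPt, ∃ w, Q.img (pt w) = x
  /-- the values of a nowhere zero section of the pullback of `L` to the normalisations `ℙ¹` of the
  curves in `R` (its degree is zero) -/
  triv : Q.Pt → κ
  triv_ne : ∀ u, triv u ≠ 0
  /-- the pullback of the divisor `F` to the normalisation of a curve in `R` -/
  div : Q.R → Multiset Q.Pt
  /-- a common multiple `δ` of the degrees of `F` on the finitely many families, and the quotient of
  `δ` by the degree of `F` on the curve -/
  δ : ℕ
  quo : Q.R → ℕ
  δ_pos : 0 < δ
  /-- sections of `m L` on `F ∩ E`, on `U` and on `E` -/
  SecF : ℕ → Set (Q.XPt → κ)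
  SecU : ℕ → Set (UPt → κ)
  SecE : ℕ → Set (Q.XPt → κ)
  /-- `L` is ample on `F ∩ E` -/
  ample : ∀ C : Q.R, ∃ m : ℕ, 0 < m ∧ ∃ f ∈ SecF m, ∀ a ∈ div C, f (Q.img a) ≠ 0
  /-- The norm of a section of a line bundle for a finite flat morphism, [EGA II, 6.5]: the pullback
  of `F` to `U` is finite and flat over `V`, of degree `δ / quo` on each component, the pullback of
  `L` to the `ℙ¹`-bundle `U` is the pullback of a line bundle on `V`, and the power `quo` of the
  norm of a section of `m L` is a section of the `m δ`-th multiple on `V`, hence on `U`. -/
  norm : ∀ (m : ℕ), ∀ f ∈ SecF m,
    (fun w => triv (pt w) ^ (m * δ) *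
      ((div (Q.on (pt w))).map fun a => f (Q.img a) / triv a ^ m).prod ^ quo (Q.on (pt w))) ∈
        SecU (m * δ)
  /-- Let `U → E` be finite and surjective in characteristic `p`, `E` reduced. A section on `U` whose
  values at points with the same image agree is a section on the quotient of `U` by
  `(U ×_E U)_red`, which is a finite universal homeomorphism over `E`, so its `p ^ e`-th power comes
  from `E`, [Ke, 1.4], [Ko2, Section 6]. -/
  descent : ∀ (m : ℕ), ∀ g ∈ SecU m,
    (∀ w w', Q.img (pt w) = Q.img (pt w') → g w = g w') →
      ∃ e : ℕ, ∃ h ∈ SecE (m * p ^ e), ∀ w, h (Q.img (pt w)) = g w ^ p ^ e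
  /-- `E` is noetherian: if the multiples of `L` have sections without common zeros on `E`, then
  the restriction of `L` to `E` is semiample -/
  semi : (∀ x ∈ EPt, ∃ m : ℕ, 0 < m ∧ ∃ h ∈ SecE m, h x ≠ 0) → Q.SemiampleOn s

attribute [instance] Norms.fld

/-- A Fano variety with its subvarieties and its rational curves. -/
structure FanoCurves (k : Type) [Field k] (n p : ℕ) extends FanoSub k n p where
  rat : ∀ L : Pic, Rational toFanoSub L
  /-- See `Norms`. If `c L - E` is ample, the curves in `R` are contained in `E`. Let every
  component `W` of `E` be negative on a curve `C` in `R`. The family of `C` has dimension at least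
  `n - 2`, its members are contained in `W`, and only one curve in `R` contains a given point, so
  that the family covers `W`. So `U → E` is finite and surjective. -/
  norms : ∀ L : Pic, toPVar.Nef L → ∀ (s : Multiset Div) (c : ℕ),
    Ample (c • L - (s.map Δ.cls).sum) →
      (∀ W ∈ s, ∃ C : (rat L).R, deg ((rat L).cur C) (Δ.cls W) < 0) → ∀ M A, Ample A →
        toPVar.Nef M → toPVar.Semiample M → toPVar.numDim M A = 1 → Ample (L + M) →
          (∀ C : (rat L).R, deg ((rat L).cur C) K = -1) →
            (∀ u u' : (rat L).Pt, (rat L).img u = (rat L).img u' → u = u') →
              Nonempty (Norms (rat L) s)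

end Pool.CC
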