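import Pool.Agent.Work.MP_d0224f_na.Dream

/-!
# Subvarieties, and the base of the quotient with its subvarieties

The setting is that of `Pool.Agent.Work.MP_d0224f_na.Defs`; `k` is an algebraically closed field of
characteristic `p > 0`. The structures of this file add closed subvarieties of all dimensions. Every
field is a datum, a standard property or a published theorem, with a reference or the short reason.
Nothing about base point freeness of nef line bundles on `X` is assumed.
-/

set_option autoImplicit false

namespace Pool.CC

open Finset Pool.NA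

/-- The integral closed subvarieties of a projective variety `X` of dimension `n`, with intersection
numbers. -/
structure Subs {k : Type} [Field k] {n : ℕ} (X : PVar k n) where
  /-- the integral closed subvarieties of dimension `d` -/
  Sub : ℕ → Type
  /-- intersection numbers `(D_1 ⋯ D_d · Z)` -/
  num : ∀ {d : ℕ}, Sub d → MultilinearMap ℤ (fun _ : Fin d => X.Pic) ℤ
  dim_le : ∀ {d : ℕ}, Sub d → d ≤ n
  /-- Kleiman, [La, 1.4.9] -/
  num_nonneg : ∀ {d : ℕ} (Z : Sub d) (v : Fin d → X.Pic), (∀ j, X.Nef (v j)) → 0 ≤ num Z v
  num_ample : ∀ {d : ℕ} (Z : Sub d) A, X.Ample A → 0 < num Z (fun _ => A)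
  /-- `Z` is a component of a complete intersection of `n - d` members of some `|m A|`, so that
  `m ^ (n - d) A ^ (n - d) - Z` is effective; intersect with `d` nef line bundles -/
  dom : ∀ {d : ℕ} (Z : Sub d) A, X.Ample A → ∃ c : ℕ, ∀ v : Fin d → X.Pic, (∀ j, X.Nef (v j)) →
    num Z v ≤ c * X.inter (fun i => if h : (i : ℕ) < d then v ⟨i, h⟩ else A)

/-- The numerical dimension of the restriction of a nef line bundle `L` to the subvariety `Z`: the
largest `i` with `L ^ i · A ^ (d - i) · Z > 0`; here `A` is ample (the number does not depend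
on `A`). -/
noncomputable def Subs.numDim {k : Type} [Field k] {n : ℕ} {X : PVar k n} (B : Subs X) {d : ℕ}
    (Z : B.Sub d) (L A : X.Pic) : ℕ :=
  (univ.filter (fun s : Finset (Fin d) =>
    0 < B.num Z (s.piecewise (fun _ => L) (fun _ => A)))).sup Finset.card

/-- Let `q : X ⇢ T` be the quotient of `X` by the rational curves `C` with `L · C = 0`, with the
family `q' : U → T'` of its fibres, `dim T' = t`. As in `Pool.NA.Descent` there are a finite
morphism `T'' → T'` from a normal projective variety `S = T''`, the normalised pullback
`q'' : U'' → T''` of the family (equidimensional, with fibres of dimension `n - t` which are finite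
over their images in `X`) and a nef line bundle `N` on `T''` such that the pullbacks of `L` and `N`
to `U''` are proportional up to torsion. -/
structure Base {k : Type} [Field k] {n : ℕ} {X : PVar k n} (B : Subs X) {K : X.Pic} {p : ℕ}
    (F : Fibration X K p) (L : X.Pic) where
  S : PVar k F.t
  N : S.Pic
  nef : S.Nef N
  /-- semiampleness descends under surjective morphisms onto normal varieties, [Ke, 2.10] -/
  semi : S.Semiample N → X.Semiample L
  /-- the subvarieties of `T''` -/
  V : Subs S
  /-- the criterion of Nakai and Moishezon, [La, 1.2.23] -/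
  nakai : ∀ D, (∀ s, 1 ≤ s → ∀ Y : V.Sub s, 0 < V.num Y (fun _ => D)) → S.Ample D
  /-- the irreducible components `W` of the preimage `q''⁻¹ (Y)`, all of dimension `n - t + s` -/
  Comp : ∀ {s : ℕ}, V.Sub s → Type
  comp_ne : ∀ {s : ℕ} (Y : V.Sub s), Nonempty (Comp Y)
  /-- the dimension of the image of `W` in `X` -/
  dim : ∀ {s : ℕ} {Y : V.Sub s}, Comp Y → ℕ
  /-- the image of `W` in `X` -/
  im : ∀ {s : ℕ} {Y : V.Sub s} (W : Comp Y), B.Sub (dim W)
  dim_le : ∀ {s : ℕ} {Y : V.Sub s} (W : Comp Y), dim W ≤ n - F.t + s
  /-- `T'' → T' → Chow (X)` is finite, so the cycles do not stay constant along a curve `Y` in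
  `T''`: one component of `q''⁻¹ (Y)` has an image of dimension `n - t + 1` -/
  vary : ∀ Y : V.Sub 1, ∃ W : Comp Y, dim W = n - F.t + 1
  /-- If `W → X` is not generically finite, some curve in `W` is contracted in `X`. It is finite over
  a curve `Y'` in `T''`, and `N · Y' = 0` because `L` and `N` are proportional on `U''`. -/
  contr : ∀ {s : ℕ} {Y : V.Sub s} (W : Comp Y), dim W < n - F.t + s →
    ∃ Y' : V.Sub 1, V.num Y' (fun _ => N) = 0
  /-- If `N ^ s · Y = 0` (`s = dim Y`), then `L ^ s` is numerically trivial on `W`, as `L` and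
  `q''^* N` are proportional there, hence on the image of `W` in `X`. -/
  triv : ∀ {s : ℕ} (Y : V.Sub s), V.num Y (fun _ => N) = 0 → ∀ (W : Comp Y)
    (v : Fin (dim W) → X.Pic) (a : Finset (Fin (dim W))), (∀ j, X.Nef (v j)) →
      (∀ j ∈ a, v j = L) → s ≤ a.card → B.num (im W) v = 0
  /-- If `N` has nonzero degree on all curves in `T''`, then `U'' → X`, and so `μ : U → X`, is
  finite (see `contr`), hence `μ` is an isomorphism (Zariski's main theorem) and `q` is a morphism
  `X → T'`. Then `P = q^* A_T` is base point free, and `P · C = 0` for every curve `C` with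
  `L · C = 0`: otherwise `q (C)` is a curve, and `N` has degree zero on the curves in `T''`
  over it. -/
  morphism : (∀ Y : V.Sub 1, V.num Y (fun _ => N) ≠ 0) →
    X.Bpf F.P ∧ X.Nef F.P ∧ ∀ C, X.deg C L = 0 → X.deg C F.P = 0

/-- A Fano variety of dimension `n` over an algebraically closed field of characteristic `p`, with
its closed subvarieties. -/
structure FanoSub (k : Type) [Field k] (n p : ℕ) extends FanoVar k n p where
  B : Subs toPVar
  bpf_zero : Bpf 0
  bpf_add : ∀ D E, Bpf D → Bpf E → Bpf (D + E)
  /-- Existence of the quotient: Campana; Kollár, Miyaoka, Mori; [Ko, IV.4.16, IV.4.17] -/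
  exists_base : ∀ L, toPVar.Nef L →
    ∃ F : Fibration toPVar K p, IsQuotient F L ∧ Nonempty (Base B F L)

namespace FanoSub

variable {k : Type} [Field k] {n p : ℕ} (X : FanoSub k n p)

/-- `dim Z - ν (L | Z) ≤ dim X - ν (L)` for all closed subvarieties `Z` of `X`. (If `L` is semiample,
this means that all fibres of its fibration have dimension `n - ν (L)`.) -/
def Equidim (L A : X.Pic) : Prop :=
  ∀ (d : ℕ) (Z : X.B.Sub d), d + X.numDim L A ≤ n + X.B.numDim Z L A

/-- The closed subvarieties of `X` on which `L` is numerically trivial have dimension at most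
`n - ν (L)`. -/
def Equidim₀ (L A : X.Pic) : Prop :=
  ∀ (d : ℕ) (Z : X.B.Sub d), X.B.numDim Z L A = 0 → d + X.numDim L A ≤ n

/-- The nef line bundle `L` spans an extremal ray of the nef cone: a nef line bundle which is zero
on all curves on which `L` is zero is a rational multiple of `L`. -/
def Extremal (L : X.Pic) : Prop :=
  ∀ D, X.Nef D → (∀ C, X.deg C L = 0 → X.deg C D = 0) →
    ∃ m a : ℕ, 0 < m ∧ m • D = a • L

end FanoSub

end Pool.CC
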