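import Pool.Agent.Work.MP_d0224f_cc.Curves

/-!
# Fano varieties with a fibration over a curve: the rational curves on which `L` is zero are disjoint
-/

set_option autoImplicit false

namespace Pool.CC

open Finset Pool.NA

section

variable {k : Type} [Field k] {n p : ℕ} {X : FanoSub k n p} {L M A : X.Pic}

/-- If `M` is nef of numerical dimension one and `L + M` is ample, there is no family of dimension
`n - 1`. -/
theorem Rational.dim_lt (Q : Rational X L) (hL : X.Nef L) (hM : X.Nef M) (hA : X.Ample A)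
    (hLM : X.Ample (L + M)) (hν : X.numDim M A = 1) {s : Multiset X.Div} {c : ℕ}
    (hs : X.Ample (c • L - (s.map X.Δ.cls).sum)) (𝓖 : Q.Fam) : Q.dim 𝓖 + 1 < n := by
  by_contra hcon
  push Not at hcon
  obtain ⟨Z, hZ⟩ := Q.surface hL s c hs 𝓖 hcon
  have h1 := dim_le_of_complement X.toPVar X.B Z hL hM hA hLM
  rw [hZ A hA, hν] at h1
  omega

/-- All curves in `R` have anticanonical degree one. -/
theorem Rational.degree (Q : Rational X L) (hL : X.Nef L) (hM : X.Nef M) (hA : X.Ample A)
    (hLM : X.Ample (L + M)) (hν : X.numDim M A = 1) {s : Multiset X.Div} {c : ℕ}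
    (hs : X.Ample (c • L - (s.map X.Δ.cls).sum)) (C : Q.R) : X.deg (Q.cur C) X.K = -1 := by
  obtain ⟨𝓖, h𝓖⟩ := Q.move hL C
  have h1 := Q.dim_lt hL hM hA hLM hν hs 𝓖
  have h2 := X.deg_ample _ X.fano (Q.cur C)
  rw [map_neg] at h2
  have h3 : (Q.dim 𝓖 : ℤ) + 1 < n := by exact_mod_cast h1
  omega

/-- Different curves in `R` do not meet, and the normalisations of the curves in `R` are
injective. -/
theorem Rational.injective (Q : Rational X L) (hL : X.Nef L) (hM : X.Nef M) (hA : X.Ample A)
    (hLM : X.Ample (L + M)) (hν : X.numDim M A = 1) {s : Multiset X.Div} {c : ℕ}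
    (hs : X.Ample (c • L - (s.map X.Δ.cls).sum)) (u u' : Q.Pt) (h : Q.img u = Q.img u') :
    u = u' := by
  obtain ⟨𝓣, htree, hdim⟩ := Q.lower hL u u' h (Q.degree hL hM hA hLM hν hs _)
    (Q.degree hL hM hA hLM hν hs _)
  rcases Q.types hL 𝓣 with ⟨𝓖, h𝓖⟩ | h1
  · have := Q.dim_lt hL hM hA hLM hν hs 𝓖
    omega
  · exact h1 u u' h htree

end

section

variable {k : Type} [Field k] {n p : ℕ}

/-- A nef line bundle of numerical dimension one is semiample if there is a nef line bundle `L`
with `L + M` ample which is not big; in general use the quotient. -/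
theorem semiample_one (hp : 2 ≤ p) (X : FanoSub k n p) {M A : X.Pic} (hM : X.Nef M)
    (hA : X.Ample A) (hν : X.numDim M A = 1) : X.Semiample M := by
  refine semiample_small hp X.toSmoothVar M A hM hA 1 1 one_pos ?_ (Or.inl hν.le)
  rw [one_smul, one_smul, sub_eq_add_neg, add_comm]
  exact X.ample_add_nef _ _ X.fano hM

/-- **Base point freeness on the exceptional divisor.** The norms of the sections of multiples of
`L` on `F ∩ E` descend to `E`, since the curves in `R` are disjoint and unibranch, and they have no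
common zeros. -/
theorem Norms.semiampleOn {X : FanoSub k n p} {L : X.Pic} {Q : Rational X L}
    {s : Multiset X.Div} (S : Norms Q s) (hp : 2 ≤ p)
    (hinj : ∀ u u' : Q.Pt, Q.img u = Q.img u' → u = u') : Q.SemiampleOn s := by
  refine S.semi fun x hx => ?_
  obtain ⟨w, rfl⟩ := S.surj x hx
  obtain ⟨m, hm, f, hf, hne⟩ := S.ample (Q.on (S.pt w))
  obtain ⟨e, h, hh, hval⟩ := S.descent _ _ (S.norm m f hf) fun w w' hww => by
    simp only [hinj _ _ hww]
  refine ⟨m * S.δ * p ^ e, Nat.mul_pos (Nat.mul_pos hm S.δ_pos) (pow_pos (by omega) e), h, hh, ?_⟩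
  rw [hval]
  refine pow_ne_zero _ (mul_ne_zero (pow_ne_zero _ (S.triv_ne _)) (pow_ne_zero _ ?_))
  refine Multiset.prod_ne_zero fun h0 => ?_
  rw [Multiset.mem_map] at h0
  obtain ⟨a, ha, h1⟩ := h0
  exact div_ne_zero (hne a ha) (pow_ne_zero _ (S.triv_ne _)) h1

/-- If `D` is negative on the rays on which the nef line bundle `L` is zero, then `c L - D` is ample
for some `c`. -/
theorem exists_ample_sub (X : FanoVar k n p) {L : X.Pic} (hL : X.Nef L) {D : X.Pic}
    (hneg : ∀ C ∈ X.rays, X.deg C L = 0 → X.deg C D < 0) : ∃ c : ℕ, X.Ample (c • L - D) := by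
  set N : ℕ := 1 + ∑ C ∈ X.rays, (X.deg C (-X.K)).natAbs with hN
  set c : ℕ := 1 + ∑ C ∈ X.rays, (X.deg C D).natAbs with hc
  have hnef : X.Nef (N • (c • L - D) - (-X.K)) := by
    refine X.cone _ fun C hC => ?_
    have h2 : (X.deg C (-X.K)).natAbs ≤ ∑ C ∈ X.rays, (X.deg C (-X.K)).natAbs :=
      single_le_sum (f := fun C => (X.deg C (-X.K)).natAbs) (fun _ _ => Nat.zero_le _) hC
    have h3 : (X.deg C D).natAbs ≤ ∑ C ∈ X.rays, (X.deg C D).natAbs :=
      single_le_sum (f := fun C => (X.deg C D).natAbs) (fun _ _ => Nat.zero_le _) hC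
    have h4 : X.deg C (-X.K) ≤ ((X.deg C (-X.K)).natAbs : ℤ) := Int.le_natAbs
    have h5 : X.deg C D ≤ ((X.deg C D).natAbs : ℤ) := Int.le_natAbs
    have h6 : ((X.deg C (-X.K)).natAbs : ℤ) + 1 ≤ N := by
      have : (X.deg C (-X.K)).natAbs + 1 ≤ N := by omega
      exact_mod_cast this
    have h7 : ((X.deg C D).natAbs : ℤ) + 1 ≤ c := by
      have : (X.deg C D).natAbs + 1 ≤ c := by omega
      exact_mod_cast this
    have key : 1 ≤ (c : ℤ) * X.deg C L - X.deg C D := by
      rcases (hL C).eq_or_lt with h | h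
      · have h10 := hneg C hC h.symm
        rw [← h, mul_zero]
        omega
      · have h8 : (c : ℤ) ≤ c * X.deg C L := by nlinarith
        omega
    rw [map_sub, map_nsmul, map_sub, map_nsmul, nsmul_eq_mul, nsmul_eq_mul]
    have h11 : (N : ℤ) ≤ N * ((c : ℤ) * X.deg C L - X.deg C D) := by nlinarith
    omega
  refine ⟨c, (X.ample_smul _ N (by omega)).1 ?_⟩
  have h1 := X.ample_add_nef _ _ X.fano hnef
  rwa [add_sub_cancel] at h1

/-- The exceptional divisor: if `L` is nef and big, there are prime divisors, each of them negative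
on a curve in `R`, such that `c L - E` is ample, `E` their sum. -/
theorem Rational.exists_exceptional {X : FanoSub k n p} {L : X.Pic} (Q : Rational X L)
    (hL : X.Nef L) (hbig : 0 < X.inter (fun _ => L)) :
    ∃ (s : Multiset X.Div) (c : ℕ), X.Ample (c • L - (s.map X.Δ.cls).sum) ∧
      ∀ W ∈ s, ∃ C : Q.R, X.deg (Q.cur C) (X.Δ.cls W) < 0 := by
  classical
  obtain ⟨m₀, E, hm₀, hE, hamp⟩ := X.Δ.kodaira L hL hbig
  obtain ⟨t, ht, htE⟩ := AddSubmonoid.exists_multiset_of_mem_closure hE
  obtain ⟨s₀, rfl⟩ : ∃ s₀ : Multiset X.Div, s₀.map X.Δ.cls = t := by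
    clear htE
    induction t using Multiset.induction_on with
    | empty => exact ⟨0, rfl⟩
    | cons a t ih =>
      obtain ⟨W, hW⟩ := ht a (Multiset.mem_cons_self a t)
      obtain ⟨s₀, hs₀⟩ := ih fun x hx => ht x (Multiset.mem_cons_of_mem hx)
      exact ⟨W ::ₘ s₀, by rw [Multiset.map_cons, hW, hs₀]⟩
  set s := s₀.filter fun W => ∃ C : Q.R, X.deg (Q.cur C) (X.Δ.cls W) < 0 with hs
  set s' := s₀.filter fun W => ¬ ∃ C : Q.R, X.deg (Q.cur C) (X.Δ.cls W) < 0 with hs'
  have hsum : (s.map X.Δ.cls).sum + (s'.map X.Δ.cls).sum = E := by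
    rw [← Multiset.sum_add, ← Multiset.map_add, hs, hs', Multiset.filter_add_not, htE]
  have hpos : ∀ C : Q.R, 0 ≤ X.deg (Q.cur C) (s'.map X.Δ.cls).sum := by
    intro C
    rw [map_multiset_sum, Multiset.map_map]
    refine Multiset.sum_nonneg fun x hx => ?_
    obtain ⟨W, hW, rfl⟩ := Multiset.mem_map.1 hx
    have h1 := (Multiset.mem_filter.1 hW).2
    by_contra hcon
    push Not at hcon
    exact h1 ⟨C, hcon⟩
  have hneg : ∀ C : Q.R, X.deg (Q.cur C) (s.map X.Δ.cls).sum < 0 := by
    intro C
    have h1 := X.deg_ample _ hamp (Q.cur C)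
    rw [map_sub, map_nsmul, Q.cur_zero, smul_zero, zero_sub, ← hsum, map_add] at h1
    have h2 := hpos C
    omega
  obtain ⟨c, hc⟩ := exists_ample_sub X.toFanoVar hL (D := (s.map X.Δ.cls).sum) fun C hC h0 => by
    obtain ⟨N, t, hN, ht0, hNt⟩ := Q.ray_rat hL C hC h0
    have h1 := hNt (s.map X.Δ.cls).sum
    have h2 : (t.map fun C' => X.deg (Q.cur C') (s.map X.Δ.cls).sum).sum < 0 := by
      obtain ⟨C₁, hC₁⟩ := Multiset.exists_mem_of_ne_zero ht0
      obtain ⟨t', rfl⟩ := Multiset.exists_cons_of_mem hC₁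
      rw [Multiset.map_cons, Multiset.sum_cons]
      have h3 : (t'.map fun C' => X.deg (Q.cur C') (s.map X.Δ.cls).sum).sum ≤ 0 := by
        refine Multiset.sum_induction (p := fun x : ℤ => x ≤ 0) _ (fun a b ha hb => by omega) le_rfl
          fun x hx => ?_
        obtain ⟨C', -, rfl⟩ := Multiset.mem_map.1 hx
        exact (hneg C').le
      have := hneg C₁
      omega
    rw [← h1] at h2
    by_contra hcon
    push Not at hcon
    have : (0:ℤ) ≤ N * X.deg C (s.map X.Δ.cls).sum := mul_nonneg (Int.natCast_nonneg N) hcon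
    omega
  exact ⟨s, c, hc, fun W hW => (Multiset.mem_filter.1 hW).2⟩

/-- A nef line bundle `L` with `ν (L) = n` is big. -/
theorem inter_pos_of_numDim (X : PVar k n) {L A : X.Pic} (hA : X.Ample A)
    (h : X.numDim L A = n) : 0 < X.inter (fun _ => L) := by
  obtain ⟨s, hs, hpos⟩ := X.exists_numDim (L := L) hA
  have h1 : s = univ := by
    rw [← Finset.card_eq_iff_eq_univ, Fintype.card_fin]
    omega
  rw [h1] at hpos
  unfold PVar.mon at hpos
  rwa [piecewise_univ] at hpos

theorem numDim_le_dim (X : PVar k n) (L A : X.Pic) : X.numDim L A ≤ n := by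
  unfold PVar.numDim
  exact Finset.sup_le fun s _ => by simpa using card_le_univ s

/-- **Base point freeness on Fano varieties which are fibred over a curve.** Let `M` be nef with
`ν (M) = 1`. Then every nef line bundle `L` with `L + M` ample is semiample. -/
theorem semiample_fibred (hp : 2 ≤ p) (X : FanoCurves k n p) {L M A : X.Pic} (hL : X.Nef L)
    (hM : X.Nef M) (hA : X.Ample A) (hLM : X.Ample (L + M)) (hν : X.numDim M A = 1) :
    X.Semiample L := by
  rcases (numDim_le_dim X.toPVar L A).eq_or_lt with h | h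
  · have hbig : 0 < X.inter (fun _ => L) := inter_pos_of_numDim X.toPVar hA h
    obtain ⟨s, c, hs, hneg⟩ := (X.rat L).exists_exceptional hL hbig
    have hinj := (X.rat L).injective hL hM hA hLM hν hs
    obtain ⟨S⟩ := X.norms L hL s c hs hneg M A hA hM (semiample_one hp X.toFanoSub hM hA hν) hν
      hLM ((X.rat L).degree hL hM hA hLM hν hs) hinj
    exact (X.rat L).keel hL hbig s c hs (S.semiampleOn hp hinj)
  · exact semiample_of_equidim hp X.toFanoSub L A hL hA
      (Or.inl (equidim_of_complement X.toFanoSub hL hM hA hLM (by omega)))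

/-- If `m D = a L + b M` and the products of `D` with nef classes are nonnegative, where `M` has
numerical dimension one, then `a ≥ 0`. -/
theorem coeff_nonneg_one (X : PVar k n) {L M A : X.Pic} (hM : X.Nef M)
    (hA : X.Ample A) (hLM : X.Ample (L + M)) (hn : 2 ≤ n) (hν : X.numDim M A = 1) {D : X.Pic}
    (hD : ∀ (v : Fin n → X.Pic) (j : Fin n), (∀ l, X.Nef (v l)) →
      0 ≤ X.inter (Function.update v j D)) {m : ℕ} {a b : ℤ} (hm : m • D = a • L + b • M) :
    0 ≤ a := by
  classical
  set H := L + M with hH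
  have hHn : X.Nef H := X.nef_of_ample hLM
  set i₀ : Fin n := ⟨0, by omega⟩ with hi₀
  set i₁ : Fin n := ⟨1, by omega⟩ with hi₁
  have h01 : i₀ ≠ i₁ := by simp [hi₀, hi₁]
  -- `v` has `M` in position `i₀` and `H` elsewhere
  set v : Fin n → X.Pic := Function.update (fun _ => H) i₀ M with hv
  have hvn : ∀ l, X.Nef (v l) := by
    intro l
    by_cases h : l = i₀
    · rw [h, hv, Function.update_self]
      exact hM
    · rw [hv, Function.update_of_ne h]
      exact hHn
  have hMM : X.inter (Function.update v i₁ M) = 0 := by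
    refine vanish X X.inter X.inter_nonneg (L := M) hA {i₀, i₁}
      (X.mon_eq_zero hM (X.nef_of_ample hA) _ ?_) _ (fun l => ?_) (fun l hl => ?_)
    · rw [card_pair h01]
      omega
    · by_cases h : l = i₁
      · rw [h, Function.update_self]
        exact hM
      · rw [Function.update_of_ne h]
        exact hvn l
    · rw [mem_insert, mem_singleton] at hl
      rcases hl with h | h
      · rw [h, Function.update_of_ne h01, hv, Function.update_self]
      · rw [h, Function.update_self]
  have hpos : 0 < X.inter v := by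
    have h1 : 0 ≤ X.inter v := X.inter_nonneg _ hvn
    refine lt_of_le_of_ne h1 fun h0 => ?_
    -- then `M` would be numerically trivial
    obtain ⟨s, hs, hsp⟩ := X.exists_numDim (L := M) hA
    have hs1 : s.card = 1 := by omega
    obtain ⟨j, hj⟩ := card_eq_one.1 hs1
    have h2 := vanish X X.inter X.inter_nonneg (L := M) (A := H) hLM {i₀} (by
      have : ({i₀} : Finset (Fin n)).piecewise (fun _ => M) (fun _ => H) = v := by
        funext l
        by_cases h : l = i₀
        · rw [h, hv, Function.update_self, piecewise_eq_of_mem _ _ _ (mem_singleton_self _)]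
        · rw [hv, Function.update_of_ne h, piecewise_eq_of_notMem _ _ _ (by simpa using h)]
      rw [this]
      exact h0.symm) (Function.update (fun _ => A) i₀ M) (fun l => by
        by_cases h : l = i₀
        · rw [h, Function.update_self]
          exact hM
        · rw [Function.update_of_ne h]
          exact X.nef_of_ample hA) (fun l hl => by
        rw [mem_singleton] at hl
        rw [hl, Function.update_self])
    have h3 : X.mon M A {i₀} = X.inter (Function.update (fun _ => A) i₀ M) := by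
      unfold PVar.mon
      congr 1
      funext l
      by_cases h : l = i₀
      · rw [h, Function.update_self, piecewise_eq_of_mem _ _ _ (mem_singleton_self _)]
      · rw [Function.update_of_ne h, piecewise_eq_of_notMem _ _ _ (by simpa using h)]
    have h4 : X.mon M A s = X.mon M A {i₀} := X.mon_eq_of_card M A (by rw [hs1]; simp)
    rw [h4, h3, h2] at hsp
    exact lt_irrefl _ hsp
  have h1 := hD v i₁ hvn
  have h2 : X.inter (Function.update v i₁ (m • D)) = m * X.inter (Function.update v i₁ D) := by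
    rw [← natCast_zsmul, MultilinearMap.map_update_smul, smul_eq_mul]
  have h3 : X.inter (Function.update v i₁ H) = X.inter v := by
    congr 1
    rw [Function.update_eq_self_iff, hv, Function.update_of_ne (Ne.symm h01)]
  have h4 : X.inter (Function.update v i₁ L) = X.inter v := by
    rw [← h3, hH, MultilinearMap.map_update_add, hMM, add_zero]
  rw [hm, MultilinearMap.map_update_add, MultilinearMap.map_update_smul,
    MultilinearMap.map_update_smul, hMM, h4, smul_zero, add_zero, smul_eq_mul] at h2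
  by_contra hcon
  push Not at hcon
  have h5 : a * X.inter v < 0 := mul_neg_of_neg_of_pos hcon hpos
  have h6 : (0:ℤ) ≤ m * X.inter (Function.update v i₁ D) := mul_nonneg (Int.natCast_nonneg m) h1
  omega

/-- nonnegative combinations with positive coefficients are ample -/
theorem ample_comb (X : PVar k n) {L M : X.Pic} (hL : X.Nef L) (hM : X.Nef M)
    (hLM : X.Ample (L + M)) {a b : ℕ} (ha : 0 < a) (hb : 0 < b) : X.Ample (a • L + b • M) := by
  have h1 : a • L + b • M = (L + M) + ((a - 1) • L + (b - 1) • M) := by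
    obtain ⟨a', rfl⟩ : ∃ a', a = a' + 1 := ⟨a - 1, by omega⟩
    obtain ⟨b', rfl⟩ : ∃ b', b = b' + 1 := ⟨b - 1, by omega⟩
    simp only [Nat.add_sub_cancel, succ_nsmul]
    abel
  rw [h1]
  exact X.ample_add_nef _ _ hLM (X.nef_add (X.nef_smul _ hL) (X.nef_smul _ hM))

/-- **Picard number two, fibred over a curve, second ray not of fibre type.** -/
theorem moriDream_big (hp : 2 ≤ p) (X : FanoCurves k n p) {L M A : X.Pic} (hA : X.Ample A)
    (hL : X.Nef L) (hM : X.Nef M) (hLM : X.Ample (L + M)) (hn : 2 ≤ n)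
    (hνL : X.numDim L A = n) (hν : X.numDim M A = 1) (hLA : ¬ X.Ample L)
    (htwo : ∀ D : X.Pic, ∃ (m : ℕ) (a b : ℤ), 0 < m ∧ m • D = a • L + b • M) :
    X.toFanoVar.MoriDream := by
  have hbig : 0 < X.inter (fun _ => L) := inter_pos_of_numDim X.toPVar hA hνL
  set Q := X.rat L with hQ
  obtain ⟨C₀⟩ := Q.exists_rat hL hLA
  have hMC : ∀ C : Q.R, 0 < X.deg (Q.cur C) M := by
    intro C
    have := X.deg_ample _ hLM (Q.cur C)
    rwa [map_add, Q.cur_zero, zero_add] at this
  -- the sign of a class on the curves in `R`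
  have hsign : ∀ (D : X.Pic) (m : ℕ) (a b : ℤ), m • D = a • L + b • M → ∀ C : Q.R,
      (m : ℤ) * X.deg (Q.cur C) D = b * X.deg (Q.cur C) M := by
    intro D m a b h C
    have h1 : X.deg (Q.cur C) (m • D) = X.deg (Q.cur C) (a • L + b • M) := by rw [h]
    rw [map_nsmul, map_add, map_zsmul, map_zsmul, Q.cur_zero, smul_zero, zero_add,
      nsmul_eq_mul, smul_eq_mul] at h1
    exact h1
  -- a prime divisor which is negative on the curves in `R`
  obtain ⟨m₀, E, hm₀, hE, hamp⟩ := X.Δ.kodaira L hL hbig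
  have hEneg : X.deg (Q.cur C₀) E < 0 := by
    have := X.deg_ample _ hamp (Q.cur C₀)
    rw [map_sub, map_nsmul, Q.cur_zero, smul_zero, zero_sub] at this
    omega
  obtain ⟨W, hWneg⟩ : ∃ W, X.deg (Q.cur C₀) (X.Δ.cls W) < 0 := by
    by_contra hcon
    push Not at hcon
    have : ∀ x ∈ AddSubmonoid.closure (Set.range X.Δ.cls), 0 ≤ X.deg (Q.cur C₀) x := by
      intro x hx
      induction hx using AddSubmonoid.closure_induction with
      | mem x hx =>
        obtain ⟨W, rfl⟩ := hx
        exact hcon W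
      | zero => rw [map_zero]
      | add x y _ _ hx hy => rw [map_add]; exact add_nonneg hx hy
    have := this E hE
    omega
  obtain ⟨c, hW⟩ : ∃ c : ℕ, X.Ample (c • L - X.Δ.cls W) := by
    obtain ⟨m, a, b, hm, hab⟩ := htwo (X.Δ.cls W)
    have ha : 0 ≤ a := coeff_nonneg_one X.toPVar hM hA hLM hn hν
      (fun v j hv => X.Δ.cls_nonneg W v j hv) hab
    have hb : b < 0 := by
      have h1 := hsign _ m a b hab C₀
      have h2 : (m : ℤ) * X.deg (Q.cur C₀) (X.Δ.cls W) < 0 :=
        mul_neg_of_pos_of_neg (by exact_mod_cast hm) hWneg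
      rw [h1] at h2
      exact neg_of_mul_neg_left h2 (hMC C₀).le
    obtain ⟨a', rfl⟩ := Int.eq_ofNat_of_zero_le ha
    obtain ⟨b', hb'⟩ := Int.eq_ofNat_of_zero_le (show 0 ≤ -b by omega)
    have hb'0 : 0 < b' := by omega
    refine ⟨a' + 1, (X.ample_smul _ m hm).1 ?_⟩
    have h1 : m • ((a' + 1) • L - X.Δ.cls W) = (m * (a' + 1) - a') • L + b' • M := by
      rw [smul_sub, hab, smul_smul]
      have h2 : a' ≤ m * (a' + 1) := by nlinarith
      have h3 : (m * (a' + 1)) • L = (m * (a' + 1) - a') • L + a' • L := by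
        rw [← add_smul, Nat.sub_add_cancel h2]
      have h4 : b • M = - (b' • M) := by
        have : b = -(b' : ℤ) := by omega
        rw [this, neg_smul, natCast_zsmul]
      rw [h3, h4, natCast_zsmul]
      abel
    rw [h1]
    refine ample_comb X.toPVar hL hM hLM ?_ hb'0
    have : a' + 1 ≤ m * (a' + 1) := Nat.le_mul_of_pos_left _ hm
    omega
  have hW' : X.Ample (c • L - (({W} : Multiset X.Div).map X.Δ.cls).sum) := by simpa using hW
  have hdeg := Q.degree hL hM hA hLM hν hW'
  have hinj := Q.injective hL hM hA hLM hν hW'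
  have hLs : X.Semiample L := semiample_fibred hp X hL hM hA hLM hν
  have hMs : X.Semiample M := semiample_one hp X.toFanoSub hM hA hν
  have hcomb : ∀ D : X.Pic, (∃ m a b : ℕ, 0 < m ∧ m • D = a • L + b • M) →
      X.Nef D ∧ X.Semiample D := by
    rintro D ⟨m, a, b, hm, hab⟩
    constructor
    · intro C
      have h1 : X.deg C (m • D) = a * X.deg C L + b * X.deg C M := by
        rw [hab, map_add, map_nsmul, map_nsmul, nsmul_eq_mul, nsmul_eq_mul]
      rw [map_nsmul, nsmul_eq_mul] at h1
      have h2 : (0:ℤ) ≤ a * X.deg C L + b * X.deg C M :=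
        add_nonneg (mul_nonneg (Int.natCast_nonneg a) (hL C))
          (mul_nonneg (Int.natCast_nonneg b) (hM C))
      by_contra hcon
      push Not at hcon
      have : (m : ℤ) * X.deg C D < 0 := mul_neg_of_pos_of_neg (by exact_mod_cast hm) hcon
      omega
    · refine semiample_of_nsmul X.toFanoSub hm ?_
      rw [hab]
      exact semiample_add X.toFanoSub (semiample_nsmul X.toFanoSub hLs a)
        (semiample_nsmul X.toFanoSub hMs b)
  have key : ∀ D : X.Pic, (∀ (v : Fin n → X.Pic) (j : Fin n), (∀ l, X.Nef (v l)) →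
      0 ≤ X.inter (Function.update v j D)) → (∃ C : Q.R, 0 ≤ X.deg (Q.cur C) D) →
      ∃ m a b : ℕ, 0 < m ∧ m • D = a • L + b • M := by
    rintro D hD ⟨C, hC⟩
    obtain ⟨m, a, b, hm, hab⟩ := htwo D
    have ha : 0 ≤ a := coeff_nonneg_one X.toPVar hM hA hLM hn hν hD hab
    have hb : 0 ≤ b := by
      by_contra hcon
      push Not at hcon
      have h1 := hsign D m a b hab C
      have h2 : b * X.deg (Q.cur C) M < 0 := mul_neg_of_neg_of_pos hcon (hMC C)
      have h3 : (0:ℤ) ≤ m * X.deg (Q.cur C) D := mul_nonneg (Int.natCast_nonneg m) hC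
      omega
    obtain ⟨a', rfl⟩ := Int.eq_ofNat_of_zero_le ha
    obtain ⟨b', rfl⟩ := Int.eq_ofNat_of_zero_le hb
    exact ⟨m, a', b', hm, by rw [hab, natCast_zsmul, natCast_zsmul]⟩
  have hnef : ∀ D, X.Nef D → ∃ m a b : ℕ, 0 < m ∧ m • D = a • L + b • M := fun D hD =>
    key D (fun v j hv => X.inter_nonneg _ fun l => by
      by_cases hl : l = j
      · subst hl
        rw [Function.update_self]
        exact hD
      · rw [Function.update_of_ne hl]
        exact hv l) ⟨C₀, hD _⟩
  refine ⟨⟨X.pic_fg, X.pic_num⟩, ?_, fun D => ⟨fun h => ?_, fun h => ?_⟩⟩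
  · have := X.pic_fg
    obtain ⟨s, w, hw, hgen⟩ := Pool.TF.gordan (W := X.Pic) (E := X.rays)
      (fun C => (Int.castAddHom ℚ).comp (X.deg C.1))
    have hwn : ∀ i, X.Nef (w i) := by
      intro i
      refine X.cone _ fun C hC => ?_
      have := hw ⟨C, hC⟩ i
      simpa using this
    refine ⟨s, w, fun i => ⟨hwn i, (hcomb _ (hnef _ (hwn i))).2⟩, fun D hD => hgen D fun C => ?_⟩
    have := hD C.1
    simpa using this
  · obtain ⟨C, hC⟩ := Q.cover hL W c hW ⟨C₀⟩ hdeg hinj D h
    refine (hcomb D (key D (fun v j hv => ?_) ⟨C, hC⟩)).1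
    obtain ⟨m, hm, hmem⟩ := X.Δ.mov_eff D h
    have h1 : ∀ x ∈ AddSubmonoid.closure (Set.range X.Δ.cls),
        0 ≤ X.inter (Function.update v j x) := by
      intro x hx
      induction hx using AddSubmonoid.closure_induction with
      | mem x hx =>
        obtain ⟨W, rfl⟩ := hx
        exact X.Δ.cls_nonneg W v j hv
      | zero => rw [MultilinearMap.map_update_zero]
      | add x y _ _ hx hy => rw [MultilinearMap.map_update_add]; exact add_nonneg hx hy
    have h2 := h1 _ hmem
    rw [← natCast_zsmul, MultilinearMap.map_update_smul, smul_eq_mul] at h2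
    by_contra hcon
    push Not at hcon
    have : (m : ℤ) * X.inter (Function.update v j D) < 0 :=
      mul_neg_of_pos_of_neg (by exact_mod_cast hm) hcon
    omega
  · exact X.Δ.mov_of_bpf D (hcomb D (hnef D h)).2

end

end Pool.CC
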