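import Pool.Agent.Work.MP_d0224f_cc.Main

/-!
# Semiample line bundles and Mori dream spaces
-/

set_option autoImplicit false

namespace Pool.CC

open Finset Pool.NA

section

variable {k : Type} [Field k] {n p : ℕ}

theorem quotient_dim (hp : 2 ≤ p) (X : FanoSub k n p) (L A : X.Pic) (hL : X.Nef L)
    (hA : X.Ample A) : ∃ F : Fibration X.toPVar X.K p, IsQuotient F L ∧
      F.t = X.numDim L A ∧ Nonempty (Base X.B F L) := by
  obtain ⟨F, hq, hD⟩ := X.exists_base L hL
  have hH : X.Ample (1 • L - 1 • X.K) := by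
    rw [one_smul, one_smul, sub_eq_add_neg, add_comm]
    exact X.ample_add_nef _ _ X.fano hL
  have h1 : F.t ≤ X.numDim L A := dim_le_numDim hp hL hA hq 1 1 one_pos hH
  obtain ⟨s, hs, hspos⟩ := X.exists_numDim (L := L) hA
  have h2 : X.numDim L A ≤ F.t := by
    by_contra hcon
    push Not at hcon
    have := F.pow_zero L hL hq.triv (s.piecewise (fun _ => L) (fun _ => A)) s
      (fun j hj => piecewise_eq_of_mem _ _ _ hj) (by omega)
    unfold PVar.mon at hspos
    omega
  exact ⟨F, hq, le_antisymm h1 h2, hD⟩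

theorem bpf_nsmul (X : FanoSub k n p) {D : X.Pic} (h : X.Bpf D) (m : ℕ) : X.Bpf (m • D) := by
  induction m with
  | zero => rw [zero_smul]; exact X.bpf_zero
  | succ m ih => rw [succ_nsmul]; exact X.bpf_add _ _ ih h

/-- **Base point freeness for equidimensional quotients.** -/
theorem semiample_of_equidim (hp : 2 ≤ p) (X : FanoSub k n p) (L A : X.Pic) (hL : X.Nef L)
    (hA : X.Ample A) (h : X.Equidim L A ∨ (X.Extremal L ∧ X.Equidim₀ L A)) :
    X.Semiample L := by
  obtain ⟨F, hq, ht, ⟨D⟩⟩ := quotient_dim hp X L A hL hA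
  rcases h with h | ⟨hext, h⟩
  · exact D.semi (semiample_of_ample D.S (D.ample hL hA ht h))
  · by_cases h0 : F.t = 0
    · refine D.semi (semiample_of_ample D.S (D.nakai _ fun s hs Y => ?_))
      have := D.V.dim_le Y
      omega
    · obtain ⟨hbpf, hnef, htriv⟩ := D.morphism (D.strict hL hA ht h)
      obtain ⟨m, a, hm, hma⟩ := hext F.P hnef htriv
      have ha : a ≠ 0 := by
        rintro rfl
        obtain ⟨G, hG, -⟩ := hq.closed
        have hn := F.t_le
        obtain ⟨b, f, e, -, -, htd, -⟩ := F.exists_ci (by omega) A hA ⟨0, by omega⟩ G hG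
        have h1 := F.tdeg_pos b
        have h2 : F.degL f (m • F.P) = 0 := by rw [hma, zero_smul, map_zero]
        rw [map_nsmul, nsmul_eq_mul, ← htd] at h2
        have : (0:ℤ) < m * F.tdeg b := mul_pos (by exact_mod_cast hm) h1
        omega
      refine ⟨a, by omega, ?_⟩
      rw [← hma]
      exact bpf_nsmul X hbpf m

theorem semiample_zero (X : FanoSub k n p) : X.Semiample 0 :=
  ⟨1, one_pos, by rw [smul_zero]; exact X.bpf_zero⟩

theorem semiample_add (X : FanoSub k n p) {D E : X.Pic} (hD : X.Semiample D)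
    (hE : X.Semiample E) : X.Semiample (D + E) := by
  obtain ⟨m, hm, hmD⟩ := hD
  obtain ⟨l, hl, hlE⟩ := hE
  refine ⟨m * l, Nat.mul_pos hm hl, ?_⟩
  have h1 : (m * l) • (D + E) = l • (m • D) + m • (l • E) := by
    rw [smul_add, smul_smul, smul_smul, mul_comm l m]
  rw [h1]
  exact X.bpf_add _ _ (bpf_nsmul X hmD l) (bpf_nsmul X hlE m)

theorem semiample_sum (X : FanoSub k n p) {r : ℕ} (G : Fin r → X.Pic)
    (h : ∀ i, X.Semiample (G i)) : X.Semiample (∑ i, G i) :=
  Finset.sum_induction G X.Semiample (fun _ _ => semiample_add X) (semiample_zero X)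
    (fun i _ => h i)

theorem semiample_nsmul (X : FanoSub k n p) {D : X.Pic} (h : X.Semiample D) (m : ℕ) :
    X.Semiample (m • D) := by
  obtain ⟨l, hl, hlD⟩ := h
  refine ⟨l, hl, ?_⟩
  rw [smul_smul, mul_comm, ← smul_smul]
  exact bpf_nsmul X hlD m

theorem semiample_of_nsmul (X : FanoSub k n p) {D : X.Pic} {m : ℕ} (hm : 0 < m)
    (h : X.Semiample (m • D)) : X.Semiample D := by
  obtain ⟨l, hl, hlD⟩ := h
  exact ⟨l * m, Nat.mul_pos hl hm, by rw [← smul_smul]; exact hlD⟩

/-- A Fano variety all of whose prime divisors are nef and all of whose nef line bundles are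
semiample is a Mori dream space. -/
theorem moriDream_of_semiample (X : FanoSub k n p) (hdiv : ∀ W, X.Nef (X.Δ.cls W))
    (hsemi : ∀ L, X.Nef L → X.Semiample L) : X.toFanoVar.MoriDream := by
  have hcl : ∀ E ∈ AddSubmonoid.closure (Set.range X.Δ.cls), X.Nef E := by
    intro E hE
    induction hE using AddSubmonoid.closure_induction with
    | mem x hx =>
      obtain ⟨W, rfl⟩ := hx
      exact hdiv W
    | zero => exact fun C => by rw [map_zero]
    | add x y _ _ hx hy => exact X.toPVar.nef_add hx hy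
  refine ⟨⟨X.pic_fg, X.pic_num⟩, ?_, fun D => ⟨fun h => ?_, fun h => ?_⟩⟩
  · have := X.pic_fg
    obtain ⟨s, w, hw, hgen⟩ := Pool.TF.gordan (W := X.Pic) (E := X.rays)
      (fun C => (Int.castAddHom ℚ).comp (X.deg C.1))
    have hwn : ∀ i, X.Nef (w i) := by
      intro i
      refine X.cone _ fun C hC => ?_
      have := hw ⟨C, hC⟩ i
      simpa using this
    refine ⟨s, w, fun i => ⟨hwn i, hsemi _ (hwn i)⟩, fun D hD => hgen D fun C => ?_⟩
    have := hD C.1
    simpa using this
  · obtain ⟨m, hm, hmem⟩ := X.Δ.mov_eff D h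
    have h1 := hcl _ hmem
    intro C
    have h2 := h1 C
    rw [map_nsmul, nsmul_eq_mul] at h2
    by_contra hcon
    push Not at hcon
    have : (m : ℤ) * X.deg C D < 0 :=
      mul_neg_of_pos_of_neg (by exact_mod_cast hm) hcon
    omega
  · exact X.Δ.mov_of_bpf D (hsemi D h)

/-- **Mori dream spaces.** -/
theorem moriDream (hp : 2 ≤ p) (X : FanoSub k n p) (A : X.Pic) (hA : X.Ample A)
    (hdiv : ∀ W, X.Nef (X.Δ.cls W))
    (hgen : ∀ D, X.Nef D → ∃ (m r : ℕ) (G : Fin r → X.Pic), 0 < m ∧ m • D = ∑ i, G i ∧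
      ∀ i, X.Nef (G i) ∧
        (X.Equidim (G i) A ∨ (X.Extremal (G i) ∧ X.Equidim₀ (G i) A))) :
    X.toFanoVar.MoriDream := by
  refine moriDream_of_semiample X hdiv fun D hD => ?_
  obtain ⟨m, r, G, hm, hsum, hG⟩ := hgen D hD
  refine semiample_of_nsmul X hm ?_
  rw [hsum]
  exact semiample_sum X G fun i => semiample_of_equidim hp X (G i) A (hG i).1 hA (hG i).2

/-- A nef line bundle with a complementary nef line bundle satisfies the dimension condition. -/
theorem equidim_of_complement (X : FanoSub k n p) {L M A : X.Pic} (hL : X.Nef L) (hM : X.Nef M)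
    (hA : X.Ample A) (hLM : X.Ample (L + M)) (h : X.numDim L A + X.numDim M A ≤ n) :
    X.Equidim L A := by
  intro d Z
  have := dim_le_of_complement X.toPVar X.B Z hL hM hA hLM
  omega

end

section Two

variable {k : Type} [Field k] {n : ℕ} (X : PVar k n)

/-- There is a nonzero product of `ν (L)` factors `L` and `ν (M)` factors `M`. -/
theorem exists_product {L M A : X.Pic} (hL : X.Nef L) (hM : X.Nef M) (hA : X.Ample A)
    (hLM : X.Ample (L + M)) (h : X.numDim L A + X.numDim M A ≤ n) :
    ∃ s : Finset (Fin n), s.card = X.numDim L A ∧ sᶜ.card = X.numDim M A ∧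
      0 < X.inter (s.piecewise (fun _ => L) (fun _ => M)) := by
  classical
  have h1 := X.inter_ample (L + M) hLM
  have h2 : (fun _ : Fin n => L + M) = (fun _ : Fin n => L) + (fun _ => M) := rfl
  rw [h2, MultilinearMap.map_add_univ] at h1
  obtain ⟨s, -, hs⟩ := exists_lt_of_sum_lt (f := fun _ => (0:ℤ)) (by simpa using h1)
  have hv : ∀ j, X.Nef (s.piecewise (fun _ => L) (fun _ => M) j) := by
    intro j
    by_cases h : j ∈ s
    · rw [piecewise_eq_of_mem _ _ _ h]
      exact hL
    · rw [piecewise_eq_of_notMem _ _ _ h]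
      exact hM
  have h3 : s.card ≤ X.numDim L A := by
    by_contra hcon
    push Not at hcon
    have := vanish X X.inter X.inter_nonneg hA s (X.mon_eq_zero hL (X.nef_of_ample hA) s hcon) _ hv
      fun j hj => piecewise_eq_of_mem _ _ _ hj
    omega
  have h4 : sᶜ.card ≤ X.numDim M A := by
    by_contra hcon
    push Not at hcon
    have := vanish X X.inter X.inter_nonneg hA sᶜ (X.mon_eq_zero hM (X.nef_of_ample hA) sᶜ hcon) _
      hv fun j hj => piecewise_eq_of_notMem _ _ _ (by simpa using hj)
    omega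
  have h5 : s.card + sᶜ.card = n := by
    rw [card_add_card_compl, Fintype.card_fin]
  exact ⟨s, by omega, by omega, hs⟩

/-- If `D` is nef or a prime divisor and `m D = a L + b M`, then `b ≥ 0`. -/
theorem coeff_nonneg {L M A : X.Pic} (hL : X.Nef L) (hM : X.Nef M) (hA : X.Ample A)
    (hLM : X.Ample (L + M)) (h : X.numDim L A + X.numDim M A ≤ n) (hMpos : 0 < X.numDim M A)
    {D : X.Pic} (hD : ∀ (v : Fin n → X.Pic) (j : Fin n), (∀ l, X.Nef (v l)) →
      0 ≤ X.inter (Function.update v j D)) {m : ℕ} {a b : ℤ} (hm : m • D = a • L + b • M) :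
    0 ≤ b := by
  classical
  obtain ⟨s, hs, hsc, hpos⟩ := exists_product X hL hM hA hLM h
  obtain ⟨j, hj⟩ : sᶜ.Nonempty := by
    rw [← card_pos]
    omega
  have hjs : j ∉ s := by simpa using hj
  set v := s.piecewise (fun _ => L) (fun _ => M) with hvdef
  have hv : ∀ j, X.Nef (v j) := by
    intro j
    by_cases h : j ∈ s
    · rw [hvdef, piecewise_eq_of_mem _ _ _ h]
      exact hL
    · rw [hvdef, piecewise_eq_of_notMem _ _ _ h]
      exact hM
  have h1 := hD v j hv
  have h2 : X.inter (Function.update v j (m • D)) =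
      m * X.inter (Function.update v j D) := by
    rw [← natCast_zsmul, MultilinearMap.map_update_smul, smul_eq_mul]
  have h3 : X.inter (Function.update v j L) = 0 := by
    refine vanish X X.inter X.inter_nonneg (L := L) hA (insert j s)
      (X.mon_eq_zero hL (X.nef_of_ample hA) _ ?_) _ (fun l => ?_) (fun l hl => ?_)
    · rw [card_insert_of_notMem hjs]
      omega
    · by_cases hl : l = j
      · subst hl
        rw [Function.update_self]
        exact hL
      · rw [Function.update_of_ne hl]
        exact hv l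
    · by_cases hlj : l = j
      · subst hlj
        rw [Function.update_self]
      · rw [Function.update_of_ne hlj, hvdef, piecewise_eq_of_mem _ _ _
          (mem_of_mem_insert_of_ne hl hlj)]
  have h4 : Function.update v j M = v := by
    rw [Function.update_eq_self_iff, hvdef, piecewise_eq_of_notMem _ _ _ hjs]
  rw [hm, MultilinearMap.map_update_add, MultilinearMap.map_update_smul,
    MultilinearMap.map_update_smul, h3, h4, smul_zero, zero_add, smul_eq_mul] at h2
  by_contra hcon
  push Not at hcon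
  have h5 : b * X.inter v < 0 := mul_neg_of_neg_of_pos hcon hpos
  have h6 : (0:ℤ) ≤ m * X.inter (Function.update v j D) :=
    mul_nonneg (Int.natCast_nonneg m) h1
  omega

end Two

section

variable {k : Type} [Field k] {n p : ℕ}

/-- **Picard number two.** -/
theorem moriDream_two (hp : 2 ≤ p) (X : FanoSub k n p) {L M A : X.Pic} (hA : X.Ample A)
    (hL : X.Nef L) (hM : X.Nef M) (hLM : X.Ample (L + M))
    (h : X.numDim L A + X.numDim M A ≤ n) (hLpos : 0 < X.numDim L A) (hMpos : 0 < X.numDim M A)
    (htwo : ∀ D : X.Pic, ∃ (m : ℕ) (a b : ℤ), 0 < m ∧ m • D = a • L + b • M) :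
    X.toFanoVar.MoriDream := by
  have hML : X.Ample (M + L) := by rw [add_comm]; exact hLM
  have h' : X.numDim M A + X.numDim L A ≤ n := by omega
  have key : ∀ D : X.Pic, (∀ (v : Fin n → X.Pic) (j : Fin n), (∀ l, X.Nef (v l)) →
      0 ≤ X.inter (Function.update v j D)) → ∃ m a b : ℕ, 0 < m ∧ m • D = a • L + b • M := by
    intro D hD
    obtain ⟨m, a, b, hm, hab⟩ := htwo D
    have hb : 0 ≤ b := coeff_nonneg X.toPVar hL hM hA hLM h hMpos hD hab
    have ha : 0 ≤ a := coeff_nonneg X.toPVar hM hL hA hML h' hLpos hD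
      (by rw [hab, add_comm])
    obtain ⟨a', rfl⟩ := Int.eq_ofNat_of_zero_le ha
    obtain ⟨b', rfl⟩ := Int.eq_ofNat_of_zero_le hb
    exact ⟨m, a', b', hm, by rw [hab, natCast_zsmul, natCast_zsmul]⟩
  have hLs : X.Semiample L := semiample_of_equidim hp X L A hL hA
    (Or.inl (equidim_of_complement X hL hM hA hLM h))
  have hMs : X.Semiample M := semiample_of_equidim hp X M A hM hA
    (Or.inl (equidim_of_complement X hM hL hA hML h'))
  refine moriDream_of_semiample X (fun W C => ?_) (fun D hD => ?_)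
  · obtain ⟨m, a, b, hm, hab⟩ := key (X.Δ.cls W) (fun v j hv => X.Δ.cls_nonneg W v j hv)
    have h1 : X.deg C (m • X.Δ.cls W) = a * X.deg C L + b * X.deg C M := by
      rw [hab, map_add, map_nsmul, map_nsmul, nsmul_eq_mul, nsmul_eq_mul]
    rw [map_nsmul, nsmul_eq_mul] at h1
    have h2 : (0:ℤ) ≤ a * X.deg C L + b * X.deg C M :=
      add_nonneg (mul_nonneg (Int.natCast_nonneg a) (hL C))
        (mul_nonneg (Int.natCast_nonneg b) (hM C))
    by_contra hcon
    push Not at hcon
    have : (m : ℤ) * X.deg C (X.Δ.cls W) < 0 :=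
      mul_neg_of_pos_of_neg (by exact_mod_cast hm) hcon
    omega
  · obtain ⟨m, a, b, hm, hab⟩ := key D (fun v j hv => X.inter_nonneg _ fun l => by
      by_cases hl : l = j
      · subst hl
        rw [Function.update_self]
        exact hD
      · rw [Function.update_of_ne hl]
        exact hv l)
    refine semiample_of_nsmul X hm ?_
    rw [hab]
    exact semiample_add X (semiample_nsmul X hLs a) (semiample_nsmul X hMs b)

end

end Pool.CC
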