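import Pool.Agent.Work.MP_d0224f_cc.Disjoint

/-!
# Fano varieties of Picard number two which are fibred over a curve
-/

set_option autoImplicit false

namespace Pool.CC

open Finset Pool.NA

section

variable {k : Type} [Field k] {n p : ℕ}

/-- A nef line bundle `M` with `ν (M) > 0` is positive on one of the extremal rays. -/
theorem exists_ray_pos (X : FanoVar k n p) {M A : X.Pic} (hM : X.Nef M) (hA : X.Ample A)
    (hν : 0 < X.numDim M A) : ∃ C ∈ X.rays, 0 < X.deg C M := by
  by_contra hcon
  push Not at hcon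
  have hneg : X.Nef (-M) := by
    refine X.cone _ fun C hC => ?_
    rw [map_neg]
    have := hcon C hC
    omega
  obtain ⟨s, hs, hpos⟩ := X.exists_numDim (L := M) hA
  obtain ⟨j, hj⟩ : s.Nonempty := by
    rw [← card_pos]
    omega
  have hAn := X.nef_of_ample hA
  have h1 : 0 ≤ X.inter (Function.update (s.piecewise (fun _ => M) (fun _ => A)) j (-M)) := by
    refine X.inter_nonneg _ fun l => ?_
    by_cases h : l = j
    · subst h
      rw [Function.update_self]
      exact hneg
    · rw [Function.update_of_ne h]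
      exact X.nef_piecewise hM hAn s l
  have h2 : Function.update (s.piecewise (fun _ => M) (fun _ => A)) j M =
      s.piecewise (fun _ => M) (fun _ => A) := by
    rw [Function.update_eq_self_iff, piecewise_eq_of_mem _ _ _ hj]
  have h3 : X.inter (Function.update (s.piecewise (fun _ => M) (fun _ => A)) j (-M)) =
      - X.mon M A s := by
    rw [← neg_one_smul ℤ M, MultilinearMap.map_update_smul, h2, neg_one_smul]
    rfl
  rw [h3] at h1
  omega

/-- The other boundary class of the plane spanned by `-K` and a nef line bundle `M`. -/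
theorem exists_boundary (X : FanoVar k n p) {M A : X.Pic} (hM : X.Nef M) (hA : X.Ample A)
    (hν : 0 < X.numDim M A) : ∃ (L : X.Pic) (a b : ℕ), 0 < a ∧ L = a • (-X.K) - b • M ∧
      X.Nef L ∧ ¬ X.Ample L ∧ X.Ample (L + M) := by
  classical
  obtain ⟨C', hC', hpos'⟩ := exists_ray_pos X hM hA hν
  set H : X.Pic := -X.K with hH
  have hHpos : ∀ C, 0 < X.deg C H := X.deg_ample H X.fano
  obtain ⟨C₁, hC₁, hmin⟩ := (X.rays.filter fun C => 0 < X.deg C M).exists_min_image
    (fun C => (X.deg C H : ℚ) / X.deg C M) ⟨C', mem_filter.2 ⟨hC', hpos'⟩⟩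
  have hM₁ : 0 < X.deg C₁ M := (mem_filter.1 hC₁).2
  have hH₁ := hHpos C₁
  obtain ⟨a, ha⟩ := Int.eq_ofNat_of_zero_le hM₁.le
  obtain ⟨b, hb⟩ := Int.eq_ofNat_of_zero_le hH₁.le
  have ha0 : 0 < a := by omega
  have hb0 : 0 < b := by omega
  have hdeg : ∀ C, X.deg C (a • H - b • M) = a * X.deg C H - b * X.deg C M := by
    intro C
    rw [map_sub, map_nsmul, map_nsmul, nsmul_eq_mul, nsmul_eq_mul]
  have hnef : X.Nef (a • H - b • M) := by
    refine X.cone _ fun C hC => ?_
    rw [hdeg]
    rcases (hM C).eq_or_lt with h | h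
    · rw [← h, mul_zero, sub_zero]
      exact mul_nonneg (Int.natCast_nonneg a) (hHpos C).le
    · have h1 := hmin C (mem_filter.2 ⟨hC, h⟩)
      rw [div_le_div_iff₀ (by exact_mod_cast hM₁) (by exact_mod_cast h)] at h1
      have h2 : X.deg C₁ H * X.deg C M ≤ X.deg C H * X.deg C₁ M := by exact_mod_cast h1
      rw [ha, hb] at h2
      nlinarith
  have hsum : X.Ample (a • H - b • M + b • M) := by
    rw [sub_add_cancel]
    exact (X.ample_smul H a ha0).2 X.fano
  refine ⟨a • H - b • M, a, b, ha0, rfl, hnef, fun hamp => ?_, ?_⟩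
  · have h1 := X.deg_ample _ hamp C₁
    rw [hdeg, ha, hb] at h1
    nlinarith
  · refine (X.ample_smul _ b hb0).1 ?_
    have h1 : b • (a • H - b • M + M) =
        (a • H - b • M + b • M) + (b - 1) • (a • H - b • M) := by
      obtain ⟨b', rfl⟩ : ∃ b', b = b' + 1 := ⟨b - 1, by omega⟩
      simp only [Nat.add_sub_cancel, smul_add, succ_nsmul _ b']
      abel
    rw [h1]
    exact X.ample_add_nef _ _ hsum (X.nef_smul _ hnef)

/-- **Every Fano variety of dimension `n ≥ 2` and Picard number two with a nonconstant morphism to a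
curve is a Mori dream space.** -/
theorem moriDream_fibred (hp : 2 ≤ p) (X : FanoCurves k n p) {M : X.Pic} (hn : 2 ≤ n)
    (hM : X.Nef M) (hν : X.numDim M (-X.K) = 1)
    (htwo : ∀ D : X.Pic, ∃ (m : ℕ) (a b : ℤ), 0 < m ∧ m • D = a • X.K + b • M) :
    X.toFanoVar.MoriDream := by
  have hA : X.Ample (-X.K) := X.fano
  obtain ⟨L, a, b, ha, hLeq, hL, hLA, hLM⟩ := exists_boundary X.toFanoVar hM hA (by omega)
  have htwo' : ∀ D : X.Pic, ∃ (m : ℕ) (a b : ℤ), 0 < m ∧ m • D = a • L + b • M := by
    intro D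
    obtain ⟨m, x, y, hm, hD⟩ := htwo D
    refine ⟨a * m, -x, a * y - x * b, Nat.mul_pos ha hm, ?_⟩
    have h1 : (a : ℤ) • X.K = -L - (b : ℤ) • M := by
      rw [hLeq]
      simp only [natCast_zsmul, smul_neg]
      abel
    rw [← smul_smul, hD, ← natCast_zsmul (a := x • X.K + y • M), smul_add, smul_smul, smul_smul,
      mul_comm (a : ℤ) x, ← smul_smul, h1, smul_sub, smul_neg, smul_smul, sub_smul, neg_smul]
    abel
  rcases (numDim_le_dim X.toPVar L (-X.K)).eq_or_lt with h | h
  · exact moriDream_big hp X hA hL hM hLM hn h hν hLA htwo'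
  · have h1 : X.numDim L (-X.K) + X.numDim M (-X.K) ≤ n := by omega
    obtain ⟨s, hs, hsc, -⟩ := exists_product X.toPVar hL hM hA hLM h1
    have h2 : s.card + sᶜ.card = n := by
      rw [card_add_card_compl, Fintype.card_fin]
    exact moriDream_two hp X.toFanoSub hA hL hM hLM h1 (by omega) (by omega) htwo'

end

end Pool.CC
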