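import Pool.Agent.Work.MP_d0224f_cc.Defs

/-!
# Base point freeness for equidimensional quotients and for complementary pairs
-/

set_option autoImplicit false

namespace Pool.CC

open Finset Pool.NA

section General

variable {k : Type} [Field k] {n : ℕ} (X : PVar k n)

/-- If `f (L, …, L, A, …, A) = 0`, where `f` is nonnegative on nef line bundles, then all numbers
`f (v)` with `v` nef and with `L` in the same positions are zero. -/
theorem vanish {d : ℕ} (f : MultilinearMap ℤ (fun _ : Fin d => X.Pic) ℤ)
    (hf : ∀ v, (∀ j, X.Nef (v j)) → 0 ≤ f v) {L A : X.Pic} (hA : X.Ample A) (s : Finset (Fin d))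
    (h0 : f (s.piecewise (fun _ => L) (fun _ => A)) = 0) (v : Fin d → X.Pic)
    (hv : ∀ j, X.Nef (v j)) (hvs : ∀ j ∈ s, v j = L) : f v = 0 := by
  classical
  choose m hm hamp using fun j => X.exists_ample_sub A hA (v j)
  have hAn := X.nef_of_ample hA
  have key : ∀ T : Finset (Fin d), f v ≤ f (T.piecewise (fun j => m j • A) v) := by
    intro T
    induction T using Finset.induction_on with
    | empty => rw [piecewise_empty]
    | insert a T ha ih =>
      refine ih.trans ?_
      have h1 : (insert a T).piecewise (fun j => m j • A) v =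
          Function.update (T.piecewise (fun j => m j • A) v) a (m a • A) := by
        rw [piecewise_insert]
      have h2 : T.piecewise (fun j => m j • A) v =
          Function.update (T.piecewise (fun j => m j • A) v) a (v a) := by
        rw [Function.eq_update_iff]
        exact ⟨piecewise_eq_of_notMem _ _ _ ha, fun _ _ => rfl⟩
      have h3 : 0 ≤ f (Function.update (T.piecewise (fun j => m j • A) v) a (m a • A - v a)) := by
        refine hf _ fun j => ?_
        by_cases hj : j = a
        · subst hj
          rw [Function.update_self]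
          exact X.nef_of_ample (hamp j)
        · rw [Function.update_of_ne hj]
          by_cases hjT : j ∈ T
          · rw [piecewise_eq_of_mem _ _ _ hjT]
            exact X.nef_smul _ hAn
          · rw [piecewise_eq_of_notMem _ _ _ hjT]
            exact hv j
      rw [MultilinearMap.map_update_sub] at h3
      rw [h1]
      rw [← h2] at h3
      linarith
  have hlast : f (sᶜ.piecewise (fun j => m j • A) v) = 0 := by
    have h1 : sᶜ.piecewise (fun j => m j • A) v =
        sᶜ.piecewise (fun i => (fun j => (m j : ℤ)) i •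
          (s.piecewise (fun _ => L) (fun _ => A)) i) (s.piecewise (fun _ => L) (fun _ => A)) := by
      funext j
      by_cases h : j ∈ s
      · have h' : j ∉ sᶜ := by simpa using h
        rw [piecewise_eq_of_notMem _ _ _ h', piecewise_eq_of_notMem _ _ _ h',
          piecewise_eq_of_mem _ _ _ h, hvs j h]
      · have h' : j ∈ sᶜ := by simpa using h
        rw [piecewise_eq_of_mem _ _ _ h', piecewise_eq_of_mem _ _ _ h',
          piecewise_eq_of_notMem _ _ _ h]
        simp
    rw [h1, MultilinearMap.map_piecewise_smul, h0, smul_zero]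
  have h1 := key sᶜ
  rw [hlast] at h1
  exact le_antisymm h1 (hf v hv)

variable (B : Subs X)

theorem numDim_le_sub {d : ℕ} (Z : B.Sub d) (L A : X.Pic) (s : Finset (Fin d))
    (h : 0 < B.num Z (s.piecewise (fun _ => L) (fun _ => A))) : s.card ≤ B.numDim Z L A := by
  unfold Subs.numDim
  exact Finset.le_sup (f := Finset.card) (mem_filter.2 ⟨mem_univ _, h⟩)

/-- a number on `Z` with more than `ν (L | Z)` factors `L` is zero -/
theorem num_eq_zero {d : ℕ} (Z : B.Sub d) {L A : X.Pic} (hL : X.Nef L) (hA : X.Ample A)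
    (s : Finset (Fin d)) (hs : B.numDim Z L A < s.card) (v : Fin d → X.Pic)
    (hv : ∀ j, X.Nef (v j)) (hvs : ∀ j ∈ s, v j = L) : B.num Z v = 0 := by
  refine vanish X (B.num Z) (B.num_nonneg Z) hA s ?_ v hv hvs
  by_contra h0
  have h1 : 0 < B.num Z (s.piecewise (fun _ => L) (fun _ => A)) := by
    refine lt_of_le_of_ne (B.num_nonneg Z _ fun j => ?_) (Ne.symm h0)
    by_cases h : j ∈ s
    · rw [piecewise_eq_of_mem _ _ _ h]
      exact hL
    · rw [piecewise_eq_of_notMem _ _ _ h]
      exact X.nef_of_ample hA
  have := numDim_le_sub X B Z L A s h1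
  omega

/-- a number on `Z` with more than `ν (M)` factors `M` is zero -/
theorem num_eq_zero_of_numDim {d : ℕ} (Z : B.Sub d) {M A : X.Pic} (hM : X.Nef M)
    (hA : X.Ample A) (s : Finset (Fin d)) (hs : X.numDim M A < s.card) (v : Fin d → X.Pic)
    (hv : ∀ j, X.Nef (v j)) (hvs : ∀ j ∈ s, v j = M) : B.num Z v = 0 := by
  obtain ⟨c, hc⟩ := B.dom Z A hA
  have h1 := hc v hv
  have hd := B.dim_le Z
  have h2 : X.inter (fun i => if h : (i : ℕ) < d then v ⟨i, h⟩ else A) = 0 := by
    set s' : Finset (Fin n) := s.map (Fin.castLEEmb hd) with hs'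
    refine vanish X X.inter X.inter_nonneg (L := M) hA s' ?_ _ (fun j => ?_) (fun j hj => ?_)
    · refine X.mon_eq_zero hM (X.nef_of_ample hA) s' ?_
      rw [hs', card_map]
      exact hs
    · by_cases h : (j : ℕ) < d
      · simp only [h, dif_pos]
        exact hv _
      · simp only [h, dif_neg, not_false_eq_true]
        exact X.nef_of_ample hA
    · rw [hs', mem_map] at hj
      obtain ⟨i, hi, rfl⟩ := hj
      have h : ((Fin.castLEEmb hd i : Fin n) : ℕ) < d := by
        simp
      simp only [h, dif_pos]
      exact hvs i hi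
  rw [h2, mul_zero] at h1
  exact le_antisymm h1 (B.num_nonneg Z v hv)

/-- If `L + M` is ample, then `dim Z ≤ ν (L | Z) + ν (M)` for every subvariety `Z`. -/
theorem dim_le_of_complement {d : ℕ} (Z : B.Sub d) {L M A : X.Pic} (hL : X.Nef L) (hM : X.Nef M)
    (hA : X.Ample A) (hLM : X.Ample (L + M)) : d ≤ B.numDim Z L A + X.numDim M A := by
  classical
  by_contra hcon
  push Not at hcon
  have h1 := B.num_ample Z (L + M) hLM
  have h2 : (fun _ : Fin d => L + M) = (fun _ : Fin d => L) + (fun _ => M) := rfl
  rw [h2, MultilinearMap.map_add_univ] at h1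
  refine absurd h1 (not_lt.2 (le_of_eq (sum_eq_zero fun s _ => ?_)))
  have hv : ∀ j, X.Nef (s.piecewise (fun _ => L) (fun _ => M) j) := by
    intro j
    by_cases h : j ∈ s
    · rw [piecewise_eq_of_mem _ _ _ h]
      exact hL
    · rw [piecewise_eq_of_notMem _ _ _ h]
      exact hM
  by_cases hs : B.numDim Z L A < s.card
  · exact num_eq_zero X B Z hL hA s hs _ hv fun j hj => piecewise_eq_of_mem _ _ _ hj
  · refine num_eq_zero_of_numDim X B Z hM hA sᶜ ?_ _ hv fun j hj =>
      piecewise_eq_of_notMem _ _ _ (by simpa using hj)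
    rw [card_compl, Fintype.card_fin]
    omega

end General

section Bases

variable {k : Type} [Field k] {n p : ℕ} {X : PVar k n} {B : Subs X} {K : X.Pic}
  {F : Fibration X K p} {L : X.Pic}

/-- If `N ^ s · Y = 0`, then `ν (L) < s` on the images in `X` of the components over `Y`. -/
theorem Base.numDim_lt (D : Base B F L) {A : X.Pic} (hL : X.Nef L) (hA : X.Ample A) {s : ℕ}
    (hs : 1 ≤ s) (Y : D.V.Sub s) (h0 : D.V.num Y (fun _ => D.N) = 0) (W : D.Comp Y) :
    B.numDim (D.im W) L A < s := by
  unfold Subs.numDim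
  rw [Finset.sup_lt_iff (by exact_mod_cast hs)]
  intro a ha
  have hpos := (mem_filter.1 ha).2
  by_contra hcon
  push Not at hcon
  refine absurd hpos (not_lt.2 (le_of_eq (D.triv Y h0 W _ a (fun j => ?_)
    (fun j hj => piecewise_eq_of_mem _ _ _ hj) hcon)))
  by_cases h : j ∈ a
  · rw [piecewise_eq_of_mem _ _ _ h]
    exact hL
  · rw [piecewise_eq_of_notMem _ _ _ h]
    exact X.nef_of_ample hA

/-- `N` has nonzero degree on all curves in `T''`. -/
theorem Base.strict (D : Base B F L) {A : X.Pic} (hL : X.Nef L) (hA : X.Ample A)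
    (ht : F.t = X.numDim L A)
    (h : ∀ (d : ℕ) (Z : B.Sub d), B.numDim Z L A = 0 → d + X.numDim L A ≤ n)
    (Y : D.V.Sub 1) : D.V.num Y (fun _ => D.N) ≠ 0 := by
  intro h0
  obtain ⟨W, hW⟩ := D.vary Y
  have h1 := D.numDim_lt hL hA le_rfl Y h0 W
  have h2 := h _ (D.im W) (by omega)
  have := F.t_le
  omega

/-- If the quotient is equidimensional in the strong numerical sense, then `N` is ample. -/
theorem Base.ample (D : Base B F L) {A : X.Pic} (hL : X.Nef L) (hA : X.Ample A)
    (ht : F.t = X.numDim L A)
    (h : ∀ (d : ℕ) (Z : B.Sub d), d + X.numDim L A ≤ n + B.numDim Z L A) : D.S.Ample D.N := by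
  refine D.nakai D.N fun s hs Y => ?_
  have hnn : 0 ≤ D.V.num Y (fun _ => D.N) := D.V.num_nonneg Y _ fun _ => D.nef
  refine lt_of_le_of_ne hnn fun h0 => ?_
  obtain ⟨W⟩ := D.comp_ne Y
  have h1 := D.numDim_lt hL hA hs Y h0.symm W
  have h2 := h _ (D.im W)
  have h3 : D.dim W = n - F.t + s := by
    refine le_antisymm (D.dim_le W) ?_
    by_contra hcon
    push Not at hcon
    obtain ⟨Y', hY'⟩ := D.contr W hcon
    refine D.strict hL hA ht (fun d Z hZ => ?_) Y' hY'
    have := h d Z
    omega
  have := F.t_le
  omega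

end Bases

end Pool.CC
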